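import Mathlib
import Pool.Agent.TH974.IH.Box

/-!
Job IH-G3: environments realising a network.
-/

set_option autoImplicit false

open Finset MeasureTheory ProbabilityTheory Filter Topology
open scoped ENNReal NNReal

namespace Pool.Agent.TH209.IH3

open Pool.Agent.TH974.IH

lemma single_inj {d : ℕ} {i j : Fin d} (h : (Pi.single i 1 : Zd d) = Pi.single j 1) : i = j := by
  by_contra hij
  have := congrFun h i
  rw [Pi.single_eq_same, Pi.single_eq_of_ne hij] at this
  exact one_ne_zero this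

lemma hd_ne {d : ℕ} (x y : Zd d) (i j : Fin d) (h1 : x = y + Pi.single i 1)
    (h2 : y = x + Pi.single j 1) : False := by
  have e1 := congrFun h1 i
  have e2 := congrFun h2 i
  simp only [Pi.add_apply, Pi.single_eq_same] at e1 e2
  have : 0 ≤ (Pi.single j 1 : Zd d) i := by
    rw [Pi.single_apply]
    split_ifs <;> norm_num
  linarith

theorem flx_dv {d : ℕ} {R : Type*} [CommRing R] (S : Set (Zd d)) (E : Finset (Zd d × Zd d))
    (hE : Nw adjd S E) (F : Finset (Ed d)) (β : Env d)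
    (hF : ∀ e : Ed d, ((e.1, hd e) ∈ E ∨ (hd e, e.1) ∈ E) → e ∈ F)
    (hβ : ∀ e ∈ F, β e = true ↔ ((e.1, hd e) ∈ E ∨ (hd e, e.1) ∈ E)) (u : Zd d → R) (x : Zd d) :
    flx F β u x = dv E u x := by
  unfold flx dv
  rw [← Finset.sum_filter]
  refine Finset.sum_bij (fun e _ => if (e.1, hd e) ∈ E then (e.1, hd e) else (hd e, e.1))
    ?_ ?_ ?_ ?_
  · intro e he
    rw [Finset.mem_filter] at he
    have h := (hβ e he.1).1 he.2
    split_ifs with h'
    · exact h'
    · exact h.resolve_left h'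
  · intro e he e' he' hee
    have key1 : ∀ a b : Ed d, a.1 = b.1 → hd a = hd b → a = b := by
      intro a b h1 h2
      refine Prod.ext h1 (single_inj ?_)
      unfold hd at h2
      rw [h1] at h2
      exact add_left_cancel h2
    have key2 : ∀ a b : Ed d, a.1 = hd b → hd a = b.1 → False := by
      intro a b h1 h2
      exact hd_ne a.1 b.1 b.2 a.2 h1 h2.symm
    split_ifs at hee with h1 h2 h2
    · exact key1 e e' (Prod.ext_iff.1 hee).1 (Prod.ext_iff.1 hee).2
    · exact (key2 e e' (Prod.ext_iff.1 hee).1 (Prod.ext_iff.1 hee).2).elim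
    · exact (key2 e e' (Prod.ext_iff.1 hee).2 (Prod.ext_iff.1 hee).1).elim
    · exact key1 e e' (Prod.ext_iff.1 hee).2 (Prod.ext_iff.1 hee).1
  · rintro ⟨a, b⟩ hab
    obtain ⟨i, h | h⟩ := hE.adj _ hab
    · simp only at h
      have h1 : hd (a, i) = b := h.symm
      have hm : (((a, i) : Ed d).1, hd (a, i)) ∈ E ∨ (hd (a, i), ((a, i) : Ed d).1) ∈ E := by
        rw [h1]; exact Or.inl hab
      refine ⟨(a, i), ?_, ?_⟩
      · rw [Finset.mem_filter]
        exact ⟨hF _ hm, (hβ _ (hF _ hm)).2 hm⟩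
      · simp only [h1]
        rw [if_pos hab]
    · simp only at h
      have h1 : hd (b, i) = a := h.symm
      have hm : (((b, i) : Ed d).1, hd (b, i)) ∈ E ∨ (hd (b, i), ((b, i) : Ed d).1) ∈ E := by
        rw [h1]; exact Or.inr hab
      refine ⟨(b, i), ?_, ?_⟩
      · rw [Finset.mem_filter]
        exact ⟨hF _ hm, (hβ _ (hF _ hm)).2 hm⟩
      · simp only [h1]
        rw [if_neg (hE.anti _ _ hab)]
  · intro e he
    by_cases h' : (e.1, hd e) ∈ E
    · rw [if_pos h']
    · rw [if_neg h', add_comm]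

lemma dv_cast {d : ℕ} (E : Finset (Zd d × Zd d)) (u : Zd d → ℤ) (x : Zd d) :
    dv E (fun v => (u v : ℚ)) x = ((dv E u x : ℤ) : ℚ) := by
  unfold dv
  push_cast
  refine Finset.sum_congr rfl fun e _ => ?_
  split_ifs <;> simp

theorem gad_of_net {d : ℕ} (V : Finset (Zd d)) (x y : Zd d) (s q : ℕ) (S : Set (Zd d))
    (E : Finset (Zd d × Zd d)) (hG : GD adjd S E x y s q)
    (hS : ∀ v ∈ S, v = x ∨ v = y ∨ v ∈ V) (F : Finset (Ed d))
    (hF : ∀ e : Ed d, ((e.1, hd e) ∈ E ∨ (hd e, e.1) ∈ E) → e ∈ F) :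
    ∃ β : Env d, Gad q s F V x y β := by
  obtain ⟨⟨hN, hx, hy, hxy, hO⟩, hD⟩ := hG
  refine ⟨fun e => decide ((e.1, hd e) ∈ E ∨ (hd e, e.1) ∈ E), ?_⟩
  intro u hu
  have key : ∀ z, flx F (fun e => decide ((e.1, hd e) ∈ E ∨ (hd e, e.1) ∈ E)) u z = dv E u z := by
    intro z
    exact flx_dv S E hN F _ hF (fun e _ => by simp) u z
  simp only [key] at hu ⊢
  have hu' : ∀ z ∈ S, z ≠ x → z ≠ y → dv E u z = 0 := by
    intro z hz h1 h2
    rcases hS z hz with h | h | h
    · exact absurd h h1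
    · exact absurd h h2
    · exact hu z h h1 h2
  have hO' := hO (fun v => (u v : ℚ)) (fun z hz h1 h2 => by
    rw [dv_cast, hu' z hz h1 h2]; simp)
  rw [dv_cast, dv_cast] at hO'
  refine ⟨?_, ?_, hD u hu'⟩
  · exact_mod_cast hO'.1
  · exact_mod_cast hO'.2

end Pool.Agent.TH209.IH3
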