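import Mathlib
import Pool.Agent.TH974.IH.Box

/-!
Job IH-G4: the faces are connected through the bridges.
-/

set_option autoImplicit false

open Finset MeasureTheory ProbabilityTheory Filter Topology
open scoped ENNReal NNReal

namespace Pool.Agent.TH209.IH4

open Pool.Agent.TH974.IH

lemma mem_cube {d : ℕ} {a b : ℤ} {x : Zd d} : x ∈ cube d a b ↔ ∀ i, a ≤ x i ∧ x i ≤ b := by
  unfold cube
  rw [Fintype.mem_piFinset]
  simp only [Finset.mem_Icc]

lemma mem_Fc {d K : ℕ} (x : Zd d) : x ∈ Fc d K ↔
    ∃ j, (x j = 1 ∨ x j = (K : ℤ) + 4) ∧ ∀ i, i ≠ j → 2 ≤ x i ∧ x i ≤ (K : ℤ) + 3 := by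
  unfold Fc nex
  rw [Finset.mem_filter, mem_cube, Finset.card_eq_one]
  constructor
  · rintro ⟨h1, j, hj⟩
    refine ⟨j, ?_, ?_⟩
    · have : j ∈ ({j} : Finset (Fin d)) := Finset.mem_singleton_self j
      rw [← hj, Finset.mem_filter] at this
      exact this.2
    · intro i hi
      have : i ∉ ({j} : Finset (Fin d)) := by
        rw [Finset.mem_singleton]
        exact hi
      rw [← hj, Finset.mem_filter] at this
      have h3 : ¬ (x i = 1 ∨ x i = (K : ℤ) + 4) := fun h => this ⟨Finset.mem_univ _, h⟩
      have := h1 i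
      omega
  · rintro ⟨j, hj, h⟩
    refine ⟨?_, j, ?_⟩
    · intro i
      by_cases hi : i = j
      · subst hi
        omega
      · have := h i hi
        omega
    · ext i
      rw [Finset.mem_filter, Finset.mem_singleton]
      constructor
      · rintro ⟨_, h3⟩
        by_contra hi
        have := h i hi
        omega
      · rintro rfl
        exact ⟨Finset.mem_univ _, hj⟩

lemma add_single {d : ℕ} (x : Zd d) (i : Fin d) :
    x + Pi.single i 1 = Function.update x i (x i + 1) := by
  funext k
  by_cases hk : k = i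
  · subst hk
    simp
  · simp [Function.update_of_ne hk, Pi.single_eq_of_ne hk]

lemma con_symm {d : ℕ} {F : Set (Ed d)} {ω : Env d} {x y : Zd d} (h : Con F ω x y) :
    Con F ω y x := by
  induction h with
  | refl => exact Relation.ReflTransGen.refl
  | tail _ hbc ih =>
    refine Relation.ReflTransGen.head ?_ ih
    obtain ⟨e, he, ho, h1 | h1⟩ := hbc
    · exact ⟨e, he, ho, Or.inr h1⟩
    · exact ⟨e, he, ho, Or.inl h1⟩

section

variable {d K : ℕ} {ω : Env d}

lemma step (h2 : ∀ e ∈ EF d K, ω e = true) (x : Zd d) (i : Fin d) (hx : x ∈ Fc d K)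
    (hy : Function.update x i (x i + 1) ∈ Fc d K) :
    Con (cedges d 0 (((K + 6 : ℕ) : ℤ) - 1)) ω x (Function.update x i (x i + 1)) := by
  have hh : hd (x, i) = Function.update x i (x i + 1) := add_single x i
  have hc : ∀ z ∈ Fc d K, z ∈ cube d 0 (((K + 6 : ℕ) : ℤ) - 1) := by
    intro z hz
    unfold Fc at hz
    rw [Finset.mem_filter, mem_cube] at hz
    rw [mem_cube]
    intro k
    have := hz.1 k
    push_cast
    omega
  refine Relation.ReflTransGen.single ⟨(x, i), ?_, ?_, Or.inl ⟨rfl, hh⟩⟩
  · refine ⟨hc _ hx, ?_⟩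
    rw [hh]
    exact hc _ hy
  · apply h2
    refine ⟨hx, ?_⟩
    rw [hh]
    exact hy

lemma line (h2 : ∀ e ∈ EF d K, ω e = true) (x : Zd d) (i : Fin d) (a b : ℤ) (hab : a ≤ b)
    (h : ∀ s, a ≤ s → s ≤ b → Function.update x i s ∈ Fc d K) :
    Con (cedges d 0 (((K + 6 : ℕ) : ℤ) - 1)) ω (Function.update x i a)
      (Function.update x i b) := by
  induction b, hab using Int.leInduction with
  | base => exact Relation.ReflTransGen.refl
  | succ b hb ih =>
    refine (ih fun s h1 h2 => h s h1 (by omega)).trans ?_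
    have h3 := step h2 (Function.update x i b) i (h b hb (by omega)) (by
      rw [Function.update_idem, Function.update_self]
      exact h (b + 1) (by omega) le_rfl)
    rw [Function.update_idem, Function.update_self] at h3
    exact h3

/-- the centre of a face -/
def ctr (j : Fin d) (b : ℤ) : Zd d := Function.update (fun _ => 2) j b

lemma face (h2 : ∀ e ∈ EF d K, ω e = true) (x : Zd d) (j : Fin d)
    (hj : x j = 1 ∨ x j = (K : ℤ) + 4) (hx : ∀ i, i ≠ j → 2 ≤ x i ∧ x i ≤ (K : ℤ) + 3) :
    Con (cedges d 0 (((K + 6 : ℕ) : ℤ) - 1)) ω x (ctr j (x j)) := by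
  have key : ∀ S : Finset (Fin d), j ∉ S →
      Con (cedges d 0 (((K + 6 : ℕ) : ℤ) - 1)) ω x (fun i => if i ∈ S then 2 else x i) := by
    intro S
    induction S using Finset.induction_on with
    | empty =>
      intro _
      simp only [Finset.notMem_empty, if_false]
      exact Relation.ReflTransGen.refl
    | insert k S hk ih =>
      intro hjS
      rw [Finset.mem_insert, not_or] at hjS
      refine (ih hjS.2).trans ?_
      obtain ⟨z, hz⟩ : ∃ z : Zd d, z = fun i => if i ∈ S then 2 else x i := ⟨_, rfl⟩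
      rw [← hz]
      have hzk : z k = x k := by simp [hz, hk]
      have hzj : z j = x j := by simp [hz, hjS.2]
      have hzb : ∀ i, i ≠ j → 2 ≤ z i ∧ z i ≤ (K : ℤ) + 3 := by
        intro i hi
        rw [hz]
        simp only
        split_ifs
        · omega
        · exact hx i hi
      have hkj : k ≠ j := fun h => hjS.1 h.symm
      have h3 := line h2 z k 2 (z k) (hzb k hkj).1 ?_
      · rw [Function.update_eq_self] at h3
        have h4 := con_symm h3
        have e5 : (fun i => if i ∈ insert k S then 2 else x i) = Function.update z k 2 := by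
          funext i
          by_cases hi : i = k
          · subst hi
            simp
          · simp [hz, hi]
        rw [e5]
        exact h4
      · intro s hs1 hs2
        rw [mem_Fc]
        refine ⟨j, ?_, ?_⟩
        · rw [Function.update_of_ne hkj.symm, hzj]
          exact hj
        · intro i hi
          by_cases hik : i = k
          · subst hik
            rw [Function.update_self]
            exact ⟨hs1, hs2.trans (hzb i hi).2⟩
          · rw [Function.update_of_ne hik]
            exact hzb i hi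
  have h1 := key (Finset.univ.erase j) (by simp)
  convert h1 using 1
  funext i
  unfold ctr
  by_cases hi : i = j
  · subst hi
    simp
  · simp [hi]

lemma bridge (hK : 1 ≤ K) (h1 : ∀ e ∈ EB d K, ω e = true) (h2 : ∀ e ∈ EF d K, ω e = true)
    (i j : Fin d) (hij : i ≠ j) (a b : ℤ) (ha : a = 1 ∨ a = (K : ℤ) + 4)
    (hb : b = 1 ∨ b = (K : ℤ) + 4) :
    Con (cedges d 0 (((K + 6 : ℕ) : ℤ) - 1)) ω (ctr j b)
      (Function.update (Function.update (fun _ => 2) i a) j b) := by
  have hcb : ∀ s : ℤ, 1 ≤ s → s ≤ (K : ℤ) + 4 →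
      (Function.update (Function.update (fun _ => 2) i s) j b : Zd d) ∈
        cube d 0 (((K + 6 : ℕ) : ℤ) - 1) := by
    intro s hs1 hs2
    rw [mem_cube]
    intro k
    push_cast
    by_cases hk : k = j
    · subst hk
      rw [Function.update_self]
      omega
    · rw [Function.update_of_ne hk]
      by_cases hk' : k = i
      · subst hk'
        rw [Function.update_self]
        omega
      · rw [Function.update_of_ne hk']
        omega
  have hadd : ∀ s : ℤ, hd ((Function.update (Function.update (fun _ => 2) i s) j b : Zd d), i) =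
      Function.update (Function.update (fun _ => 2) i (s + 1)) j b := by
    intro s
    unfold hd
    simp only
    funext k
    by_cases hk : k = j
    · subst hk
      simp [Pi.single_eq_of_ne (Ne.symm hij)]
    · by_cases hk' : k = i
      · subst hk'
        simp [Function.update_of_ne hk]
      · simp [Function.update_of_ne hk, Function.update_of_ne hk', Pi.single_eq_of_ne hk']
  have hface : ∀ s : ℤ, 2 ≤ s → s ≤ (K : ℤ) + 3 →
      Con (cedges d 0 (((K + 6 : ℕ) : ℤ) - 1)) ω
        (Function.update (Function.update (fun _ => 2) i s) j b) (ctr j b) := by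
    intro s hs1 hs2
    have h3 := face h2 (Function.update (Function.update (fun _ => 2) i s) j b) j
      (by rw [Function.update_self]; exact hb) (by
        intro k hk
        rw [Function.update_of_ne hk]
        by_cases hk' : k = i
        · subst hk'
          rw [Function.update_self]
          exact ⟨hs1, hs2⟩
        · rw [Function.update_of_ne hk']
          omega)
    rwa [Function.update_self] at h3
  rcases ha with ha | ha
  · subst ha
    have h3 := hadd 1
    rw [show (1 : ℤ) + 1 = 2 from by norm_num] at h3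
    refine (con_symm (hface 2 le_rfl (by omega))).trans (Relation.ReflTransGen.single
      ⟨(Function.update (Function.update (fun _ => 2) i 1) j b, i), ?_, ?_, Or.inr ⟨rfl, h3⟩⟩)
    · refine ⟨hcb 1 le_rfl (by omega), ?_⟩
      rw [h3]
      exact hcb 2 (by omega) (by omega)
    · apply h1
      exact ⟨i, j, 1, b, hij, Or.inl rfl, hb, Or.inl ⟨rfl, rfl⟩⟩
  · subst ha
    have h3 := hadd ((K : ℤ) + 3)
    have h4 : (K : ℤ) + 3 + 1 = K + 4 := by ring
    rw [h4] at h3
    refine (con_symm (hface ((K : ℤ) + 3) (by omega) le_rfl)).trans (Relation.ReflTransGen.single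
      ⟨(Function.update (Function.update (fun _ => 2) i ((K : ℤ) + 3)) j b, i), ?_, ?_,
        Or.inl ⟨rfl, h3⟩⟩)
    · refine ⟨hcb _ (by omega) (by omega), ?_⟩
      rw [h3]
      exact hcb _ (by omega) le_rfl
    · apply h1
      exact ⟨i, j, (K : ℤ) + 4, b, hij, Or.inr rfl, hb, Or.inr ⟨rfl, rfl⟩⟩

lemma two_faces (hK : 1 ≤ K) (h1 : ∀ e ∈ EB d K, ω e = true) (h2 : ∀ e ∈ EF d K, ω e = true)
    (i j : Fin d) (hij : i ≠ j) (a b : ℤ) (ha : a = 1 ∨ a = (K : ℤ) + 4)
    (hb : b = 1 ∨ b = (K : ℤ) + 4) :
    Con (cedges d 0 (((K + 6 : ℕ) : ℤ) - 1)) ω (ctr i a) (ctr j b) := by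
  have h3 := bridge hK h1 h2 i j hij a b ha hb
  have h4 := bridge hK h1 h2 j i hij.symm b a hb ha
  rw [Function.update_comm hij.symm] at h4
  exact h4.trans (con_symm h3)

end

theorem conn_faces {d : ℕ} (hd2 : 2 ≤ d) (K : ℕ) (hK : 1 ≤ K) (ω : Env d)
    (h1 : ∀ e ∈ EB d K, ω e = true) (h2 : ∀ e ∈ EF d K, ω e = true) (x y : Zd d)
    (hx : x ∈ Fc d K) (hy : y ∈ Fc d K) : Con (cedges d 0 (((K + 6 : ℕ) : ℤ) - 1)) ω x y := by
  obtain ⟨j, hj, hjx⟩ := (mem_Fc x).1 hx
  obtain ⟨i, hi, hiy⟩ := (mem_Fc y).1 hy
  have hx' := face h2 x j hj hjx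
  have hy' := face h2 y i hi hiy
  refine hx'.trans (Relation.ReflTransGen.trans ?_ (con_symm hy'))
  by_cases hij : j = i
  · subst hij
    have : Nontrivial (Fin d) := Fin.nontrivial_iff_two_le.2 hd2
    obtain ⟨k, hk⟩ := exists_ne j
    exact (two_faces hK h1 h2 j k hk.symm _ 1 hj (Or.inl rfl)).trans
      (two_faces hK h1 h2 k j hk 1 _ (Or.inl rfl) hi)
  · exact two_faces hK h1 h2 j i hij _ _ hj hi

end Pool.Agent.TH209.IH4
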