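import Mathlib
import Pool.Agent.TH974.IH.Box

/-!
Job IH-G2: the boundary layer of a cube minus a point is connected.
-/

set_option autoImplicit false

open Finset MeasureTheory ProbabilityTheory Filter Topology
open scoped ENNReal NNReal

namespace Pool.Agent.TH209.IH2

open Pool.Agent.TH974.IH

lemma adjd_symm {d : ℕ} {x y : Zd d} (h : adjd x y) : adjd y x := by
  obtain ⟨i, h | h⟩ := h
  · exact ⟨i, Or.inr h⟩
  · exact ⟨i, Or.inl h⟩

lemma adjd_irrefl {d : ℕ} (x : Zd d) : ¬ adjd x x := by
  rintro ⟨i, h | h⟩ <;>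
  · have := congrFun h i
    simp at this

/-- the graph on the set `A` -/
def GA {d : ℕ} (A : Set (Zd d)) : SimpleGraph (Zd d) where
  Adj x y := adjd x y ∧ x ∈ A ∧ y ∈ A
  symm := ⟨fun _ _ h => ⟨adjd_symm h.1, h.2.2, h.2.1⟩⟩
  loopless := ⟨fun x h => adjd_irrefl x h.1⟩

lemma supp_mem {d : ℕ} (A : Set (Zd d)) {u v : Zd d} (p : (GA A).Walk u v) (hu : u ∈ A) :
    ∀ x ∈ p.support, x ∈ A := by
  induction p with
  | nil =>
    intro x hx
    rw [SimpleGraph.Walk.support_nil, List.mem_singleton] at hx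
    rw [hx]
    exact hu
  | cons h p ih =>
    intro x hx
    rw [SimpleGraph.Walk.support_cons, List.mem_cons] at hx
    rcases hx with hx | hx
    · rw [hx]
      exact hu
    · exact ih h.2.2 x hx

/-- a segment in the direction of one coordinate -/
lemma line {d : ℕ} (A : Set (Zd d)) (x : Zd d) (j : Fin d) (a b : ℤ) (hab : a ≤ b)
    (h : ∀ s, a ≤ s → s ≤ b → Function.update x j s ∈ A) :
    (GA A).Reachable (Function.update x j a) (Function.update x j b) := by
  induction b, hab using Int.leInduction with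
  | base => exact SimpleGraph.Reachable.refl _
  | succ b hb ih =>
    refine (ih fun s h1 h2 => h s h1 (by omega)).trans ?_
    refine SimpleGraph.Adj.reachable ?_
    refine ⟨⟨j, Or.inl ?_⟩, h b hb (by omega), h (b + 1) (by omega) le_rfl⟩
    funext k
    by_cases hk : k = j
    · subst hk
      simp
    · simp [Function.update_of_ne hk, Pi.single_eq_of_ne hk]

lemma line_up {d : ℕ} (A : Set (Zd d)) (x : Zd d) (j : Fin d) (b : ℤ) (hab : x j ≤ b)
    (h : ∀ s, x j ≤ s → s ≤ b → Function.update x j s ∈ A) :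
    (GA A).Reachable x (Function.update x j b) := by
  have := line A x j (x j) b hab h
  rwa [Function.update_eq_self] at this

lemma line_down {d : ℕ} (A : Set (Zd d)) (x : Zd d) (j : Fin d) (a : ℤ) (hab : a ≤ x j)
    (h : ∀ s, a ≤ s → s ≤ x j → Function.update x j s ∈ A) :
    (GA A).Reachable x (Function.update x j a) := by
  have := line A x j a (x j) hab h
  rw [Function.update_eq_self] at this
  exact this.symm

lemma mem_Lay {D K : ℕ} (x : Zd D) : x ∈ Lay D K ↔
    (∀ i, 2 ≤ x i ∧ x i ≤ (K : ℤ) + 3) ∧ ∃ i, x i = 2 ∨ x i = (K : ℤ) + 3 := by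
  unfold Lay cube
  rw [Finset.mem_sdiff, Fintype.mem_piFinset, Fintype.mem_piFinset]
  simp only [Finset.mem_Icc]
  constructor
  · rintro ⟨h1, h2⟩
    refine ⟨h1, ?_⟩
    rw [not_forall] at h2
    obtain ⟨i, hi⟩ := h2
    refine ⟨i, ?_⟩
    have := h1 i
    omega
  · rintro ⟨h1, i, hi⟩
    refine ⟨h1, fun h2 => ?_⟩
    have := h2 i
    omega

lemma card_Lay (D K : ℕ) : (Lay D K).card = (K + 2) ^ D - K ^ D := by
  unfold Lay
  rw [Finset.card_sdiff_of_subset]
  · unfold cube
    rw [Fintype.card_piFinset, Fintype.card_piFinset]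
    simp only [Int.card_Icc, Finset.prod_const, Finset.card_univ, Fintype.card_fin]
    congr 2
    · omega
    · omega
  · unfold cube
    intro x hx
    rw [Fintype.mem_piFinset] at hx ⊢
    intro i
    have := hx i
    rw [Finset.mem_Icc] at this ⊢
    omega

lemma pow_bound (n x : ℕ) : (x + 2) ^ (n + 1) ≤ 2 * (n + 1) * (x + 2) ^ n + x ^ (n + 1) := by
  induction n with
  | zero => simp; omega
  | succ n ih =>
    have h1 : x ^ (n + 1) ≤ (x + 2) ^ (n + 1) := Nat.pow_le_pow_left (by omega) _
    calc (x + 2) ^ (n + 1 + 1) = (x + 2) * (x + 2) ^ (n + 1) := by ring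
      _ ≤ (x + 2) * (2 * (n + 1) * (x + 2) ^ n + x ^ (n + 1)) := Nat.mul_le_mul_left _ ih
      _ = 2 * (n + 1) * (x + 2) ^ (n + 1) + x ^ (n + 1 + 1) + 2 * x ^ (n + 1) := by ring
      _ ≤ 2 * (n + 1) * (x + 2) ^ (n + 1) + x ^ (n + 1 + 1) + 2 * (x + 2) ^ (n + 1) := by
          omega
      _ = _ := by ring

section conn

variable {D K : ℕ} (hD : 1 ≤ D) (hK : 2 ≤ K) (w0 : Zd (D + 1)) (h0 : w0 0 = 2)
    (hw : ∀ i, i ≠ 0 → 3 ≤ w0 i ∧ w0 i ≤ K + 2)

/-- the layer without the point -/
def AA (D K : ℕ) (w0 : Zd (D + 1)) : Set (Zd (D + 1)) := {x | x ∈ Lay (D + 1) K ∧ x ≠ w0}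

include hK h0 in
lemma conn_a (x : Zd (D + 1)) (hx : ∀ i, 2 ≤ x i ∧ x i ≤ (K : ℤ) + 3) (hx0 : x 0 = (K : ℤ) + 3) :
    (GA (AA D K w0)).Reachable x (fun _ => (K : ℤ) + 3) := by
  have key : ∀ S : Finset (Fin (D + 1)), 0 ∉ S →
      (GA (AA D K w0)).Reachable x (fun i => if i ∈ S then (K : ℤ) + 3 else x i) := by
    intro S
    induction S using Finset.induction_on with
    | empty =>
      intro _
      simp only [Finset.notMem_empty, if_false]
      exact SimpleGraph.Reachable.refl _
    | insert j S hj ih =>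
      intro h0S
      rw [Finset.mem_insert, not_or] at h0S
      refine (ih h0S.2).trans ?_
      set z : Zd (D + 1) := fun i => if i ∈ S then (K : ℤ) + 3 else x i with hz
      have hzj : z j = x j := by simp [hz, hj]
      have hz0 : z 0 = (K : ℤ) + 3 := by simp [hz, h0S.2, hx0]
      have hzb : ∀ i, 2 ≤ z i ∧ z i ≤ (K : ℤ) + 3 := by
        intro i
        simp only [hz]
        split_ifs
        · omega
        · exact hx i
      have h1 := line_up (AA D K w0) z j ((K : ℤ) + 3) (hzb j).2 ?_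
      · convert h1 using 1
        funext i
        by_cases hi : i = j
        · subst hi
          simp
        · simp [hz, hi]
      · intro s hs1 hs2
        have h2 : Function.update z j s 0 = (K : ℤ) + 3 := by
          rw [Function.update_of_ne (fun h => h0S.1 h)]
          exact hz0
        refine ⟨(mem_Lay _).2 ⟨?_, 0, Or.inr h2⟩, ?_⟩
        · intro i
          by_cases hi : i = j
          · subst hi
            rw [Function.update_self]
            exact ⟨(hzb i).1.trans hs1, hs2⟩
          · rw [Function.update_of_ne hi]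
            exact hzb i
        · intro h3
          rw [h3, h0] at h2
          omega
  have h1 := key (Finset.univ.erase 0) (by simp)
  convert h1 using 1
  funext i
  by_cases hi : i = 0
  · subst hi
    simp [hx0]
  · simp [hi]

include hK h0 hw in
lemma conn_b (x : Zd (D + 1)) (hx : ∀ i, 2 ≤ x i ∧ x i ≤ (K : ℤ) + 3) (j : Fin (D + 1))
    (hj : j ≠ 0) (hxj : x j = 2 ∨ x j = (K : ℤ) + 3) :
    (GA (AA D K w0)).Reachable x (fun _ => (K : ℤ) + 3) := by
  have h1 := line_up (AA D K w0) x 0 ((K : ℤ) + 3) (hx 0).2 ?_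
  · refine h1.trans (conn_a hK w0 h0 _ ?_ (by simp))
    intro i
    by_cases hi : i = 0
    · subst hi
      simp only [Function.update_self]
      omega
    · rw [Function.update_of_ne hi]
      exact hx i
  · intro s hs1 hs2
    have h2 : Function.update x 0 s j = x j := Function.update_of_ne hj _ _
    refine ⟨(mem_Lay _).2 ⟨?_, j, by rw [h2]; exact hxj⟩, ?_⟩
    · intro i
      by_cases hi : i = 0
      · subst hi
        rw [Function.update_self]
        exact ⟨(hx 0).1.trans hs1, hs2⟩
      · rw [Function.update_of_ne hi]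
        exact hx i
    · intro h3
      have := hw j hj
      rw [← h3, h2] at this
      omega

include hK h0 hw in
lemma conn_c (x : Zd (D + 1)) (hx : x ∈ AA D K w0) :
    (GA (AA D K w0)).Reachable x (fun _ => (K : ℤ) + 3) := by
  obtain ⟨h1, h2⟩ := hx
  rw [mem_Lay] at h1
  obtain ⟨hb, i, hi⟩ := h1
  by_cases hj : ∃ j, j ≠ 0 ∧ (x j = 2 ∨ x j = (K : ℤ) + 3)
  · obtain ⟨j, hj0, hj⟩ := hj
    exact conn_b hK w0 h0 hw x hb j hj0 hj
  · have hi0 : i = 0 := by
      by_contra h
      exact hj ⟨i, h, hi⟩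
    subst hi0
    rcases hi with hi | hi
    · -- the bottom face
      obtain ⟨j, hj1⟩ : ∃ j, x j ≠ w0 j := by
        by_contra hcon
        apply h2
        funext j
        by_contra hj
        exact hcon ⟨j, hj⟩
      have hj0 : j ≠ 0 := by
        rintro rfl
        rw [hi, h0] at hj1
        exact hj1 rfl
      have hmem : ∀ s : ℤ, 2 ≤ s → s ≤ (K : ℤ) + 3 → s ≠ w0 j →
          Function.update x j s ∈ AA D K w0 := by
        intro s hs1 hs2 hs3
        refine ⟨(mem_Lay _).2 ⟨?_, 0, Or.inl ?_⟩, ?_⟩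
        · intro i
          by_cases hi' : i = j
          · subst hi'
            rw [Function.update_self]
            exact ⟨hs1, hs2⟩
          · rw [Function.update_of_ne hi']
            exact hb i
        · rw [Function.update_of_ne (Ne.symm hj0)]
          exact hi
        · intro h3
          apply hs3
          rw [← h3, Function.update_self]
      have hbd : ∀ c : ℤ, 2 ≤ c → c ≤ (K : ℤ) + 3 →
          ∀ i, 2 ≤ Function.update x j c i ∧ Function.update x j c i ≤ (K : ℤ) + 3 := by
        intro c hc1 hc2 i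
        by_cases hi' : i = j
        · subst hi'
          rw [Function.update_self]
          exact ⟨hc1, hc2⟩
        · rw [Function.update_of_ne hi']
          exact hb i
      rcases lt_or_gt_of_ne hj1 with hlt | hgt
      · refine (line_down (AA D K w0) x j 2 (hb j).1 ?_).trans
          (conn_b hK w0 h0 hw _ (hbd 2 le_rfl (by omega)) j hj0 (Or.inl (by simp)))
        intro s hs1 hs2
        exact hmem s hs1 (hs2.trans (hb j).2) (by omega)
      · refine (line_up (AA D K w0) x j ((K : ℤ) + 3) (hb j).2 ?_).trans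
          (conn_b hK w0 h0 hw _ (hbd _ (by omega) le_rfl) j hj0 (Or.inr (by simp)))
        intro s hs1 hs2
        exact hmem s ((hb j).1.trans hs1) hs2 (by omega)
    · exact conn_a hK w0 h0 x hb hi

end conn

theorem shell (D K : ℕ) (hD : 1 ≤ D) (hK : 2 ≤ K) (w0 v e : Zd (D + 1)) (h0 : w0 0 = 2)
    (hw : ∀ i, i ≠ 0 → 3 ≤ w0 i ∧ w0 i ≤ K + 2) (hv : v ∈ Lay (D + 1) K) (he : e ∈ Lay (D + 1) K)
    (hvw : v ≠ w0) (hew : e ≠ w0) :
    ∃ p : List (Zd (D + 1)), p.Nodup ∧ List.IsChain adjd p ∧ p.head? = some v ∧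
      p.getLast? = some e ∧ (∀ x ∈ p, x ∈ Lay (D + 1) K ∧ x ≠ w0) ∧
      p.length ≤ 2 * (D + 1) * (K + 2) ^ D := by
  classical
  have hve : (GA (AA D K w0)).Reachable v e :=
    (conn_c hK w0 h0 hw v ⟨hv, hvw⟩).trans (conn_c hK w0 h0 hw e ⟨he, hew⟩).symm
  obtain ⟨w⟩ := hve
  let q := w.toPath
  have hmem : ∀ x ∈ q.1.support, x ∈ AA D K w0 := supp_mem _ q.1 ⟨hv, hvw⟩
  refine ⟨q.1.support, q.2.support_nodup, ?_, ?_, ?_, fun x hx => hmem x hx, ?_⟩
  · exact q.1.isChain_adj_support.imp fun _ _ h => h.1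
  · rw [List.head?_eq_some_head q.1.support_ne_nil, SimpleGraph.Walk.head_support]
  · rw [List.getLast?_eq_some_getLast q.1.support_ne_nil, SimpleGraph.Walk.getLast_support]
  · have h1 : q.1.support.toFinset ⊆ Lay (D + 1) K := by
      intro x hx
      rw [List.mem_toFinset] at hx
      exact (hmem x hx).1
    have h2 := Finset.card_le_card h1
    rw [List.toFinset_card_of_nodup q.2.support_nodup, card_Lay] at h2
    have h3 := pow_bound D K
    omega

end Pool.Agent.TH209.IH2
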