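import Mathlib
import Pool.Agent.TH974.IH.Box

/-!
Job IH-G1: Hamiltonian paths of cubes (boustrophedon).
-/

set_option autoImplicit false

open Finset MeasureTheory ProbabilityTheory Filter Topology
open scoped ENNReal NNReal

namespace Pool.Agent.TH209.IH1

open Pool.Agent.TH974.IH

lemma adjd_symm {d : ℕ} {x y : Zd d} (h : adjd x y) : adjd y x := by
  obtain ⟨i, h | h⟩ := h
  · exact ⟨i, Or.inr h⟩
  · exact ⟨i, Or.inl h⟩

lemma adjd_cons {d : ℕ} {x y : Zd d} (a : ℤ) (h : adjd x y) :
    adjd (Fin.cons a x : Zd (d + 1)) (Fin.cons a y : Zd (d + 1)) := by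
  obtain ⟨i, h | h⟩ := h
  · refine ⟨i.succ, Or.inl ?_⟩
    funext k
    refine Fin.cases ?_ (fun k => ?_) k
    · simp [Fin.succ_ne_zero]
    · rw [h]
      simp [Pi.single_apply]
  · refine ⟨i.succ, Or.inr ?_⟩
    funext k
    refine Fin.cases ?_ (fun k => ?_) k
    · simp [Fin.succ_ne_zero]
    · rw [h]
      simp [Pi.single_apply]

lemma adjd_cons_head {d : ℕ} (x : Zd d) (a : ℤ) :
    adjd (Fin.cons a x : Zd (d + 1)) (Fin.cons (a + 1) x : Zd (d + 1)) := by
  refine ⟨0, Or.inl ?_⟩
  funext k
  refine Fin.cases ?_ (fun k => ?_) k
  · simp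
  · simp [Fin.succ_ne_zero]

theorem ham (D K : ℕ) : ∃ γ : ℕ → Zd D, (∀ i < K ^ D, ∀ k, 0 ≤ γ i k ∧ γ i k < K) ∧
    (∀ i < K ^ D, ∀ j < K ^ D, γ i = γ j → i = j) ∧
    ∀ i, i + 1 < K ^ D → adjd (γ i) (γ (i + 1)) := by
  induction D with
  | zero =>
    refine ⟨fun _ => Fin.elim0, fun _ _ k => k.elim0, ?_, ?_⟩
    · intro i hi j hj _
      simp only [pow_zero, Nat.lt_one_iff] at hi hj
      rw [hi, hj]
    · intro i hi
      simp at hi
  | succ D ih =>
    obtain ⟨γ, h1, h2, h3⟩ := ih
    set M := K ^ D with hM
    have hMK : K ^ (D + 1) = M * K := by rw [hM, pow_succ]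
    let idx : ℕ → ℕ := fun i => if (i / M) % 2 = 0 then i % M else M - 1 - i % M
    have hpos : ∀ i, i < K ^ (D + 1) → 0 < M := by
      intro i hi
      rw [hMK] at hi
      by_contra h
      have : M = 0 := by omega
      rw [this] at hi
      omega
    have hidx : ∀ i, 0 < M → idx i < M := by
      intro i hMp
      have := Nat.mod_lt i hMp
      simp only [idx]
      split_ifs <;> omega
    refine ⟨fun i => Fin.cons ((i / M : ℕ) : ℤ) (γ (idx i)), ?_, ?_, ?_⟩
    · intro i hi k
      have hMp := hpos i hi
      refine Fin.cases ?_ (fun k => ?_) k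
      · simp only [Fin.cons_zero]
        rw [hMK] at hi
        have : i / M < K := Nat.div_lt_of_lt_mul hi
        constructor
        · positivity
        · exact_mod_cast this
      · simp only [Fin.cons_succ]
        exact h1 _ (hidx i hMp) k
    · intro i hi j hj hij
      have hMp := hpos i hi
      have e0 := congrFun hij 0
      simp only [Fin.cons_zero] at e0
      have e1 : i / M = j / M := by exact_mod_cast e0
      have e2 : γ (idx i) = γ (idx j) := by
        funext k
        have := congrFun hij k.succ
        simpa only [Fin.cons_succ] using this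
      have e3 := h2 _ (hidx i hMp) _ (hidx j hMp) e2
      have b1 := Nat.mod_lt i hMp
      have b2 := Nat.mod_lt j hMp
      have e4 : i % M = j % M := by
        simp only [idx, e1] at e3
        split_ifs at e3 <;> omega
      rw [← Nat.div_add_mod i M, ← Nat.div_add_mod j M, e1, e4]
    · intro i hi
      have hMp := hpos _ hi
      have b1 := Nat.mod_lt i hMp
      by_cases hc : i % M + 1 < M
      · have d1 : (i + 1) / M = i / M := by
          have : i + 1 = M * (i / M) + (i % M + 1) := by
            have := Nat.div_add_mod i M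
            omega
          rw [this, Nat.mul_add_div hMp, Nat.div_eq_of_lt hc, add_zero]
        have d2 : (i + 1) % M = i % M + 1 := by
          have : i + 1 = M * (i / M) + (i % M + 1) := by
            have := Nat.div_add_mod i M
            omega
          rw [this, Nat.mul_add_mod, Nat.mod_eq_of_lt hc]
        simp only [idx, d1, d2]
        apply adjd_cons
        split_ifs
        · exact h3 _ hc
        · have e5 : M - 1 - i % M = (M - 1 - (i % M + 1)) + 1 := by omega
          rw [e5]
          exact adjd_symm (h3 _ (by omega))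
      · have hc' : i % M + 1 = M := by omega
        have e6 : i + 1 = M * (i / M + 1) := by
          have := Nat.div_add_mod i M
          rw [mul_add, mul_one]
          omega
        have d1 : (i + 1) / M = i / M + 1 := by
          rw [e6, Nat.mul_div_cancel_left _ hMp]
        have d2 : (i + 1) % M = 0 := by
          rw [e6]
          simp
        have e7 : idx (i + 1) = idx i := by
          simp only [idx, d1, d2]
          split_ifs <;> omega
        simp only [e7, d1]
        push_cast
        exact adjd_cons_head _ _

end Pool.Agent.TH209.IH1
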