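import Pool.Agent.TH209.LS_TPa
import Pool.Agent.H438R2.RZ.M1

/-!
Job LS-TP, part 2: interpolation between the exponents 2 and 4.
-/

set_option autoImplicit false

open MeasureTheory Set
open scoped ENNReal
open Pool.Agent.TH280.LS

namespace Pool.Agent.TH209.TP

variable {m : ℕ}

/-- product of the frequencies -/
noncomputable def PP (η : Fin m → ℝ) : ℝ := ∏ i, |η i|

lemma PP_nonneg (η : Fin m → ℝ) : 0 ≤ PP η := Finset.prod_nonneg fun i _ => abs_nonneg _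

lemma measurable_PP : Measurable (PP (m := m)) := by
  unfold PP
  fun_prop

/-- large part -/
noncomputable def tr1 (G : (Fin m → ℝ) → ℝ → ℂ) (l : ℝ) (η : Fin m → ℝ) (x : ℝ) : ℂ :=
  if l < PP η * ‖G η x‖ then G η x else 0

/-- small part -/
noncomputable def tr2 (G : (Fin m → ℝ) → ℝ → ℂ) (l : ℝ) (η : Fin m → ℝ) (x : ℝ) : ℂ :=
  if PP η * ‖G η x‖ ≤ l then G η x else 0

lemma tr_add (G : (Fin m → ℝ) → ℝ → ℂ) (l : ℝ) (η : Fin m → ℝ) (x : ℝ) :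
    G η x = tr1 G l η x + tr2 G l η x := by
  unfold tr1 tr2
  by_cases h : l < PP η * ‖G η x‖
  · rw [if_pos h, if_neg (not_le.2 h), add_zero]
  · rw [if_neg h, if_pos (not_lt.1 h), zero_add]

lemma meas_f {G : (Fin m → ℝ) → ℝ → ℂ} (hG : Measurable (Function.uncurry G)) :
    Measurable (fun z : (Fin m → ℝ) × ℝ => PP z.1 * ‖G z.1 z.2‖) :=
  (measurable_PP.comp measurable_fst).mul hG.norm

lemma adm1 {G : (Fin m → ℝ) → ℝ → ℂ} (hG : Adm m G) (l : ℝ) : Adm m (tr1 G l) := by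
  obtain ⟨hGm, g, hg, hb⟩ := hG
  refine ⟨?_, g, hg, fun η x => ?_⟩
  · have h1 : MeasurableSet {z : (Fin m → ℝ) × ℝ | l < PP z.1 * ‖G z.1 z.2‖} :=
      measurableSet_lt measurable_const (meas_f hGm)
    have h2 : Measurable (fun z : (Fin m → ℝ) × ℝ =>
        if l < PP z.1 * ‖G z.1 z.2‖ then Function.uncurry G z else 0) :=
      Measurable.ite h1 hGm measurable_const
    exact h2
  · unfold tr1
    split_ifs
    · exact hb η x
    · rw [norm_zero]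
      exact (norm_nonneg _).trans (hb η x)

lemma adm2 {G : (Fin m → ℝ) → ℝ → ℂ} (hG : Adm m G) (l : ℝ) : Adm m (tr2 G l) := by
  obtain ⟨hGm, g, hg, hb⟩ := hG
  refine ⟨?_, g, hg, fun η x => ?_⟩
  · have h1 : MeasurableSet {z : (Fin m → ℝ) × ℝ | PP z.1 * ‖G z.1 z.2‖ ≤ l} :=
      measurableSet_le (meas_f hGm) measurable_const
    have h2 : Measurable (fun z : (Fin m → ℝ) × ℝ =>
        if PP z.1 * ‖G z.1 z.2‖ ≤ l then Function.uncurry G z else 0) :=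
      Measurable.ite h1 hGm measurable_const
    exact h2
  · unfold tr2
    split_ifs
    · exact hb η x
    · rw [norm_zero]
      exact (norm_nonneg _).trans (hb η x)

/-- the weight -/
noncomputable def ww (z : (Fin m → ℝ) × ℝ) : ℝ≥0∞ := ENNReal.ofReal ((PP z.1)⁻¹ ^ 2)

lemma measurable_ww : Measurable (ww (m := m)) := by
  unfold ww
  exact (((measurable_PP.comp measurable_fst).inv).pow_const 2).ennreal_ofReal

/-- the measure on the data side -/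
noncomputable def mu (m : ℕ) : Measure ((Fin m → ℝ) × ℝ) :=
  ((volume : Measure (Fin m → ℝ)).prod (volume : Measure ℝ)).withDensity ww

instance : SFinite (mu m) := by unfold mu; infer_instance

lemma lint_mu (f : (Fin m → ℝ) × ℝ → ℝ≥0∞) (hf : Measurable f) :
    ∫⁻ z, f z ∂(mu m) = ∫⁻ x : ℝ, ∫⁻ η : Fin m → ℝ, ww (η, x) * f (η, x) := by
  unfold mu
  rw [lintegral_withDensity_eq_lintegral_mul _ measurable_ww hf]
  rw [lintegral_prod_symm' _ (measurable_ww.mul hf)]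
  rfl

lemma pt1 (G : (Fin m → ℝ) → ℝ → ℂ) {l : ℝ} (hl : 0 < l) (η : Fin m → ℝ) (x : ℝ) :
    ww (η, x) * {z : (Fin m → ℝ) × ℝ | l < PP z.1 * ‖G z.1 z.2‖}.indicator
      (fun z => ENNReal.ofReal (PP z.1 * ‖G z.1 z.2‖) ^ 2) (η, x) = ‖tr1 G l η x‖ₑ ^ 2 := by
  by_cases h : l < PP η * ‖G η x‖
  · rw [indicator_of_mem (show (η, x) ∈ {z : (Fin m → ℝ) × ℝ | l < PP z.1 * ‖G z.1 z.2‖} from h)]
    unfold tr1 ww
    rw [if_pos h, ← ofReal_norm, ← ENNReal.ofReal_pow (mul_nonneg (PP_nonneg _) (norm_nonneg _)),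
      ← ENNReal.ofReal_pow (norm_nonneg _), ← ENNReal.ofReal_mul (by positivity)]
    have hP : PP η ≠ 0 := by
      intro h0
      rw [h0, zero_mul] at h
      exact absurd (hl.trans h) (lt_irrefl _)
    congr 1
    simp only
    field_simp
  · rw [indicator_of_notMem (show (η, x) ∉ {z : (Fin m → ℝ) × ℝ | l < PP z.1 * ‖G z.1 z.2‖}
      from h)]
    unfold tr1
    rw [if_neg h]
    simp

lemma pt2 (G : (Fin m → ℝ) → ℝ → ℂ) (l : ℝ) (η : Fin m → ℝ) (x : ℝ) :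
    ww (η, x) * {z : (Fin m → ℝ) × ℝ | PP z.1 * ‖G z.1 z.2‖ ≤ l}.indicator
      (fun z => ENNReal.ofReal (PP z.1 * ‖G z.1 z.2‖) ^ 4) (η, x) =
      ENNReal.ofReal ((∏ i, |η i|) ^ 2) * ‖tr2 G l η x‖ₑ ^ 4 := by
  change _ = ENNReal.ofReal ((PP η) ^ 2) * ‖tr2 G l η x‖ₑ ^ 4
  by_cases h : PP η * ‖G η x‖ ≤ l
  · rw [indicator_of_mem (show (η, x) ∈ {z : (Fin m → ℝ) × ℝ | PP z.1 * ‖G z.1 z.2‖ ≤ l} from h)]
    unfold tr2 ww
    rw [if_pos h, ← ofReal_norm, ← ENNReal.ofReal_pow (mul_nonneg (PP_nonneg _) (norm_nonneg _)),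
      ← ENNReal.ofReal_pow (norm_nonneg _), ← ENNReal.ofReal_mul (by positivity),
      ← ENNReal.ofReal_mul (by positivity)]
    congr 1
    simp only
    by_cases hP : PP η = 0
    · rw [hP]; simp
    · field_simp
  · rw [indicator_of_notMem (show (η, x) ∉ {z : (Fin m → ℝ) × ℝ | PP z.1 * ‖G z.1 z.2‖ ≤ l}
      from h)]
    unfold tr2
    rw [if_neg h]
    simp

lemma pt3 (G : (Fin m → ℝ) → ℝ → ℂ) {p : ℝ} (hp : 2 < p) (η : Fin m → ℝ) (x : ℝ) :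
    ww (η, x) * ENNReal.ofReal (PP η * ‖G η x‖) ^ p =
      ENNReal.ofReal ((∏ i, |η i|) ^ (p - 2)) * ‖G η x‖ₑ ^ p := by
  change _ = ENNReal.ofReal ((PP η) ^ (p - 2)) * ‖G η x‖ₑ ^ p
  unfold ww
  rw [← ofReal_norm, ENNReal.ofReal_rpow_of_nonneg (mul_nonneg (PP_nonneg _) (norm_nonneg _))
    (by linarith), ENNReal.ofReal_rpow_of_nonneg (norm_nonneg _) (by linarith),
    ← ENNReal.ofReal_mul (by positivity),
    ← ENNReal.ofReal_mul (Real.rpow_nonneg (PP_nonneg _) _)]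
  congr 1
  simp only
  by_cases hP : PP η = 0
  · rw [hP, Real.zero_rpow (by linarith)]; simp
  · have hP' : 0 < PP η := lt_of_le_of_ne (PP_nonneg _) (Ne.symm hP)
    rw [Real.mul_rpow hP'.le (norm_nonneg _), Real.rpow_sub hP', Real.rpow_two]
    field_simp

/-- the measure on the side of the solution -/
noncomputable def nu (m : ℕ) : Measure (ℝ × ℝ × (Fin m → ℝ)) :=
  ((volume : Measure ℝ).restrict (Icc (1 : ℝ) 2)).prod
    ((volume : Measure ℝ).prod (volume : Measure (Fin m → ℝ)))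

lemma lint_nu (f : ℝ × ℝ × (Fin m → ℝ) → ℝ≥0∞) (hf : Measurable f) :
    ∫⁻ z, f z ∂(nu m) = ∫⁻ t in Icc (1 : ℝ) 2, ∫⁻ x : ℝ, ∫⁻ y : Fin m → ℝ, f (t, x, y) := by
  unfold nu
  rw [lintegral_prod _ hf.aemeasurable]
  refine lintegral_congr fun t => ?_
  have h : Measurable (fun y : ℝ × (Fin m → ℝ) => f (t, y)) := hf.comp measurable_prodMk_left
  exact lintegral_prod (fun y => f (t, y)) h.aemeasurable

theorem interp (p : ℝ) (hp2 : 2 < p) (hp4 : p < 4) : ∃ C : ℝ, 0 < C ∧ ∀ (m : ℕ)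
    (M : ℝ → ℝ → ℝ) (C2 C4 : ℝ), GB M → 0 < C2 → 0 < C4 →
    (∀ G : (Fin m → ℝ) → ℝ → ℂ, Adm m G →
      ∫⁻ t in Icc (1 : ℝ) 2, ∫⁻ x : ℝ, ∫⁻ y : Fin m → ℝ, ‖Tm m (M t) G y x‖ₑ ^ 2 ≤
        ENNReal.ofReal C2 * ∫⁻ x : ℝ, ∫⁻ η : Fin m → ℝ, ‖G η x‖ₑ ^ 2) →
    (∀ G : (Fin m → ℝ) → ℝ → ℂ, Adm m G →
      ∫⁻ t in Icc (1 : ℝ) 2, ∫⁻ x : ℝ, ∫⁻ y : Fin m → ℝ, ‖Tm m (M t) G y x‖ₑ ^ 4 ≤
        ENNReal.ofReal C4 * ∫⁻ x : ℝ, ∫⁻ η : Fin m → ℝ,
          ENNReal.ofReal ((∏ i, |η i|) ^ 2) * ‖G η x‖ₑ ^ 4) →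
    ∀ G : (Fin m → ℝ) → ℝ → ℂ, Adm m G →
      ∫⁻ t in Icc (1 : ℝ) 2, ∫⁻ x : ℝ, ∫⁻ y : Fin m → ℝ, ‖Tm m (M t) G y x‖ₑ ^ p ≤
        ENNReal.ofReal (C * C2 ^ ((4 - p) / 2) * C4 ^ ((p - 2) / 2)) *
          ∫⁻ x : ℝ, ∫⁻ η : Fin m → ℝ,
            ENNReal.ofReal ((∏ i, |η i|) ^ (p - 2)) * ‖G η x‖ₑ ^ p := by
  obtain ⟨C, hC, HC⟩ := Pool.Agent.H438R2.RZ.marc24 p hp2 hp4
  refine ⟨C, hC, ?_⟩
  intro m M C2 C4 hM hC2 hC4 H2 H4 G hG
  have hGm := hG.1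
  have hF := (meas_Tm hGm hM.meas)
  have key := HC (mu m) (nu m) (fun z => ‖Tm m (M z.1) G z.2.2 z.2.1‖)
    (fun z => PP z.1 * ‖G z.1 z.2‖) hF.norm (meas_f hGm) (fun _ => norm_nonneg _)
    (fun _ => mul_nonneg (PP_nonneg _) (norm_nonneg _)) C2 C4 hC2 hC4 ?_
  · rw [lint_mu _ ((meas_f hGm).ennreal_ofReal.pow_const p),
      lint_nu _ (hF.norm.ennreal_ofReal.pow_const p)] at key
    simp only [ofReal_norm, pt3 G hp2] at key
    exact key
  · intro l hl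
    refine ⟨fun z => ‖Tm m (M z.1) (tr1 G l) z.2.2 z.2.1‖ₑ,
      fun z => ‖Tm m (M z.1) (tr2 G l) z.2.2 z.2.1‖ₑ,
      (meas_Tm (adm1 hG l).1 hM.meas).enorm, (meas_Tm (adm2 hG l).1 hM.meas).enorm,
      Filter.Eventually.of_forall fun z => ?_, ?_, ?_⟩
    · rw [ofReal_norm]
      have hMt : Measurable (M z.1) := hM.meas.comp measurable_prodMk_left
      rw [Tm_add hMt (hM.bd z.1) (adm1 hG l) (adm2 hG l) (tr_add G l)]
      exact enorm_add_le _ _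
    · rw [lint_nu _ ((meas_Tm (adm1 hG l).1 hM.meas).enorm.pow_const 2)]
      refine (H2 _ (adm1 hG l)).trans (le_of_eq ?_)
      congr 1
      have hs : MeasurableSet {z : (Fin m → ℝ) × ℝ | l < PP z.1 * ‖G z.1 z.2‖} :=
        measurableSet_lt measurable_const (meas_f hGm)
      rw [← lintegral_indicator hs,
        lint_mu _ (((meas_f hGm).ennreal_ofReal.pow_const 2).indicator hs)]
      refine lintegral_congr fun x => lintegral_congr fun η => ?_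
      rw [pt1 G hl]
    · rw [lint_nu _ ((meas_Tm (adm2 hG l).1 hM.meas).enorm.pow_const 4)]
      refine (H4 _ (adm2 hG l)).trans (le_of_eq ?_)
      congr 1
      have hs : MeasurableSet {z : (Fin m → ℝ) × ℝ | PP z.1 * ‖G z.1 z.2‖ ≤ l} :=
        measurableSet_le (meas_f hGm) measurable_const
      rw [← lintegral_indicator hs,
        lint_mu _ (((meas_f hGm).ennreal_ofReal.pow_const 4).indicator hs)]
      refine lintegral_congr fun x => lintegral_congr fun η => ?_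
      rw [pt2 G l]

theorem tp_thm : S_T2 → S_T4 → S_TP := by
  intro H2 H4 m s p hm hs hp2 hp4
  obtain ⟨C2, hC2, K2⟩ := H2 m s hs
  obtain ⟨C4, hC4, K4⟩ := H4 m s hm hs
  rcases hp2.eq_or_lt with h | h
  · subst h
    refine ⟨C2, hC2, fun τ G hτ _ hG => ?_⟩
    have h3 := K2 τ G hτ hG
    simp only [sub_self, Real.rpow_zero, ENNReal.ofReal_one, one_mul, ENNReal.rpow_ofNat]
    exact h3
  · rcases hp4.eq_or_lt with h' | h'
    · subst h'
      refine ⟨C4, hC4, fun τ G hτ hτ1 hG => ?_⟩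
      have h3 := K4 τ G hτ hτ1 hG
      have e1 : (4 : ℝ) - 2 = 2 := by norm_num
      simp only [e1, Real.rpow_two, ENNReal.rpow_ofNat]
      exact h3
    · obtain ⟨C, hC, HC⟩ := interp p h h'
      refine ⟨C * C2 ^ ((4 - p) / 2) * C4 ^ ((p - 2) / 2), by positivity,
        fun τ G hτ hτ1 hG => ⟨?_, ?_⟩⟩
      · exact HC m (mc s τ) C2 C4 (gb_mc hs hτ) hC2 hC4
          (fun G' hG' => (K2 τ G' hτ hG').1) (fun G' hG' => (K4 τ G' hτ hτ1 hG').1) G hG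
      · exact HC m (ms s τ) C2 C4 (gb_ms hs hτ) hC2 hC4
          (fun G' hG' => (K2 τ G' hτ hG').2) (fun G' hG' => (K4 τ G' hτ hτ1 hG').2) G hG

end Pool.Agent.TH209.TP
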