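import Pool.Agent.TH280.LS.Stm

/-!
Job LS-TP, part 1: measurability and additivity of the multiplier operators.
-/

set_option autoImplicit false

open MeasureTheory Set
open scoped ENNReal
open Pool.Agent.TH280.LS

namespace Pool.Agent.TH209.TP

/-- Gaussian bound of a multiplier -/
def Gb (M : ℝ → ℝ) : Prop := ∃ K c : ℝ, 0 < c ∧ 0 ≤ K ∧ ∀ r, |M r| ≤ K * Real.exp (-(c * r ^ 2))

/-- families of multipliers with Gaussian bounds -/
structure GB (M : ℝ → ℝ → ℝ) : Prop where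
  meas : Measurable (Function.uncurry M)
  bd : ∀ t, Gb (M t)

lemma meas_ft {m : ℕ} {G : (Fin m → ℝ) → ℝ → ℂ} (hG : Measurable (Function.uncurry G)) :
    Measurable (fun z : (Fin m → ℝ) × ℝ => ft (G z.1) z.2) := by
  unfold ft
  have h : StronglyMeasurable (fun w : ((Fin m → ℝ) × ℝ) × ℝ =>
      e (-(w.2 * w.1.2)) * G w.1.1 w.2) := by
    refine Measurable.stronglyMeasurable ?_
    refine (measurable_e.comp (by fun_prop)).mul ?_
    exact hG.comp (by fun_prop : Measurable fun w : ((Fin m → ℝ) × ℝ) × ℝ => (w.1.1, w.2))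
  exact h.integral_prod_right'.measurable

lemma measurable_ra : Measurable (Function.uncurry ra) := by
  unfold Function.uncurry ra
  fun_prop

lemma meas_Ux {m : ℕ} {G : (Fin m → ℝ) → ℝ → ℂ} (hG : Measurable (Function.uncurry G))
    {M : ℝ → ℝ → ℝ} (hM : Measurable (Function.uncurry M)) :
    Measurable (fun z : (ℝ × ℝ) × (Fin m → ℝ) =>
      Ux (Real.sqrt (∑ i, z.2 i ^ 2)) (M z.1.1) (G z.2) z.1.2) := by
  unfold Ux
  have h : StronglyMeasurable (fun w : ((ℝ × ℝ) × (Fin m → ℝ)) × ℝ =>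
      e (w.1.1.2 * w.2) *
        (((M w.1.1.1 (ra (Real.sqrt (∑ i, w.1.2 i ^ 2)) w.2) : ℝ) : ℂ) * ft (G w.1.2) w.2)) := by
    refine Measurable.stronglyMeasurable ?_
    refine (measurable_e.comp (by fun_prop)).mul (Measurable.mul ?_ ?_)
    · refine Complex.measurable_ofReal.comp ?_
      have h1 : Measurable (fun w : ((ℝ × ℝ) × (Fin m → ℝ)) × ℝ =>
          ra (Real.sqrt (∑ i, w.1.2 i ^ 2)) w.2) :=
        measurable_ra.comp (by fun_prop :
          Measurable fun w : ((ℝ × ℝ) × (Fin m → ℝ)) × ℝ =>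
            (Real.sqrt (∑ i, w.1.2 i ^ 2), w.2))
      have h3 : Measurable (fun w : ((ℝ × ℝ) × (Fin m → ℝ)) × ℝ => w.1.1.1) := by fun_prop
      have h2 : Measurable (fun w : ((ℝ × ℝ) × (Fin m → ℝ)) × ℝ =>
          (w.1.1.1, ra (Real.sqrt (∑ i, w.1.2 i ^ 2)) w.2)) := h3.prodMk h1
      have h4 := hM.comp h2
      exact h4
    · have h5 : Measurable fun w : ((ℝ × ℝ) × (Fin m → ℝ)) × ℝ => (w.1.2, w.2) := by fun_prop
      have h6 := (meas_ft hG).comp h5
      exact h6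
  exact h.integral_prod_right'.measurable

lemma meas_Tm {m : ℕ} {G : (Fin m → ℝ) → ℝ → ℂ} (hG : Measurable (Function.uncurry G))
    {M : ℝ → ℝ → ℝ} (hM : Measurable (Function.uncurry M)) :
    Measurable (fun z : ℝ × ℝ × (Fin m → ℝ) => Tm m (M z.1) G z.2.2 z.2.1) := by
  unfold Tm
  have h : StronglyMeasurable (fun w : (ℝ × ℝ × (Fin m → ℝ)) × (Fin m → ℝ) =>
      e (∑ i, w.1.2.2 i * w.2 i) *
        Ux (Real.sqrt (∑ i, w.2 i ^ 2)) (M w.1.1) (G w.2) w.1.2.1) := by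
    refine Measurable.stronglyMeasurable ?_
    refine (measurable_e.comp (by fun_prop)).mul ?_
    exact (meas_Ux hG hM).comp (by fun_prop :
        Measurable fun w : (ℝ × ℝ × (Fin m → ℝ)) × (Fin m → ℝ) => ((w.1.1, w.1.2.1), w.2))
  exact h.integral_prod_right'.measurable

/-- integrand of `Ux` -/
lemma int_Ux {M : ℝ → ℝ} (hM : Measurable M) (hb : Gb M) {G0 : ℝ → ℂ} (hG0 : Integrable G0)
    (a x : ℝ) : Integrable (fun ξ : ℝ => e (x * ξ) * (((M (ra a ξ) : ℝ) : ℂ) * ft G0 ξ)) := by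
  obtain ⟨K, c, hc, hK, hb⟩ := hb
  have hI : Integrable (fun ξ : ℝ => K * (∫ z, ‖G0 z‖) * Real.exp (-c * ξ ^ 2)) :=
    (integrable_exp_neg_mul_sq hc).const_mul _
  refine hI.mono' ?_ (Filter.Eventually.of_forall fun ξ => ?_)
  · refine Measurable.aestronglyMeasurable ?_
    refine (measurable_e.comp (by fun_prop)).mul (Measurable.mul ?_
      (continuous_ft hG0).measurable)
    exact Complex.measurable_ofReal.comp
      (hM.comp (measurable_ra.comp (by fun_prop : Measurable fun ξ : ℝ => (a, ξ))))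
  · rw [norm_mul, norm_e, one_mul, norm_mul, Complex.norm_real, Real.norm_eq_abs]
    have h1 := hb (ra a ξ)
    have h2 := norm_ft_le G0 ξ
    have h3 : Real.exp (-(c * ra a ξ ^ 2)) ≤ Real.exp (-c * ξ ^ 2) := by
      apply Real.exp_le_exp.2
      unfold ra
      rw [Real.sq_sqrt (by positivity)]
      nlinarith [mul_nonneg hc.le (sq_nonneg a)]
    have h4 : |M (ra a ξ)| ≤ K * Real.exp (-c * ξ ^ 2) :=
      h1.trans (mul_le_mul_of_nonneg_left h3 hK)
    calc |M (ra a ξ)| * ‖ft G0 ξ‖ ≤ (K * Real.exp (-c * ξ ^ 2)) * ∫ z, ‖G0 z‖ :=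
          mul_le_mul h4 h2 (norm_nonneg _) (by positivity)
      _ = _ := by ring

lemma Ux_bound {M : ℝ → ℝ} {K c : ℝ} (hc : 0 < c) (hK : 0 ≤ K)
    (hb : ∀ r, |M r| ≤ K * Real.exp (-(c * r ^ 2))) {G0 : ℝ → ℂ}
    (a x : ℝ) : ‖Ux a M G0 x‖ ≤ (K * (∫ z, ‖G0 z‖) * ∫ ξ : ℝ, Real.exp (-c * ξ ^ 2)) *
      Real.exp (-(c * a ^ 2)) := by
  unfold Ux
  have hI : Integrable (fun ξ : ℝ => (K * (∫ z, ‖G0 z‖) * Real.exp (-(c * a ^ 2))) *
      Real.exp (-c * ξ ^ 2)) := (integrable_exp_neg_mul_sq hc).const_mul _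
  refine (norm_integral_le_of_norm_le hI (Filter.Eventually.of_forall fun ξ => ?_)).trans
    (le_of_eq ?_)
  · rw [norm_mul, norm_e, one_mul, norm_mul, Complex.norm_real, Real.norm_eq_abs]
    have h1 := hb (ra a ξ)
    have h2 := norm_ft_le G0 ξ
    have h3 : Real.exp (-(c * ra a ξ ^ 2)) = Real.exp (-(c * a ^ 2)) * Real.exp (-c * ξ ^ 2) := by
      rw [← Real.exp_add]
      congr 1
      unfold ra
      rw [Real.sq_sqrt (by positivity)]
      ring
    rw [h3] at h1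
    calc |M (ra a ξ)| * ‖ft G0 ξ‖ ≤ (K * (Real.exp (-(c * a ^ 2)) * Real.exp (-c * ξ ^ 2))) *
          ∫ z, ‖G0 z‖ := mul_le_mul h1 h2 (norm_nonneg _) (by positivity)
      _ = _ := by ring
  · rw [integral_const_mul]
    ring

lemma Adm.int {m : ℕ} {G : (Fin m → ℝ) → ℝ → ℂ} (h : Adm m G) (η : Fin m → ℝ) :
    Integrable (G η) := by
  obtain ⟨hG, g, hg, hb⟩ := h
  refine hg.mono' ?_ (Filter.Eventually.of_forall fun x => hb η x)
  exact (hG.comp (by fun_prop : Measurable fun x : ℝ => (η, x))).aestronglyMeasurable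

lemma int_gauss (m : ℕ) {c : ℝ} (hc : 0 < c) :
    Integrable (fun η : Fin m → ℝ => Real.exp (-(c * ∑ i, η i ^ 2))) := by
  have h : Integrable (fun η : Fin m → ℝ => ∏ i, Real.exp (-c * (η i) ^ 2)) :=
    Integrable.fintype_prod (f := fun _ : Fin m => fun x : ℝ => Real.exp (-c * x ^ 2))
      (fun _ => integrable_exp_neg_mul_sq hc)
  refine h.congr (Filter.Eventually.of_forall fun η => ?_)
  simp only
  rw [← Real.exp_sum, Finset.mul_sum, ← Finset.sum_neg_distrib]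
  congr 1
  refine Finset.sum_congr rfl fun i _ => ?_
  ring

lemma int_Tm {m : ℕ} {M : ℝ → ℝ} (hM : Measurable M) (hb : Gb M)
    {G : (Fin m → ℝ) → ℝ → ℂ} (hG : Adm m G) (y : Fin m → ℝ) (x : ℝ) :
    Integrable (fun η : Fin m → ℝ =>
      e (∑ i, y i * η i) * Ux (Real.sqrt (∑ i, η i ^ 2)) M (G η) x) := by
  obtain ⟨K, c, hc, hK, hb⟩ := hb
  obtain ⟨hGm, g, hg, hgb⟩ := id hG
  have hI : Integrable (fun η : Fin m → ℝ =>
      (K * (∫ z, g z) * ∫ ξ : ℝ, Real.exp (-c * ξ ^ 2)) * Real.exp (-(c * ∑ i, η i ^ 2))) :=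
    (int_gauss m hc).const_mul _
  refine hI.mono' ?_ (Filter.Eventually.of_forall fun η => ?_)
  · refine Measurable.aestronglyMeasurable ?_
    refine (measurable_e.comp (by fun_prop)).mul ?_
    have hM' : Measurable (Function.uncurry (fun _ : ℝ => M)) := hM.comp measurable_snd
    exact (meas_Ux hGm hM').comp (by fun_prop :
      Measurable fun η : Fin m → ℝ => (((0 : ℝ), x), η))
  · rw [norm_mul, norm_e, one_mul]
    refine (Ux_bound hc hK hb _ _).trans ?_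
    rw [Real.sq_sqrt (Finset.sum_nonneg fun i _ => sq_nonneg _)]
    refine mul_le_mul_of_nonneg_right ?_ (Real.exp_nonneg _)
    refine mul_le_mul_of_nonneg_right ?_ (integral_nonneg fun ξ => Real.exp_nonneg _)
    refine mul_le_mul_of_nonneg_left ?_ hK
    exact integral_mono (Adm.int hG η).norm hg (fun z => hgb η z)

lemma Tm_add {m : ℕ} {M : ℝ → ℝ} (hM : Measurable M) (hb : Gb M)
    {G G1 G2 : (Fin m → ℝ) → ℝ → ℂ} (h1 : Adm m G1) (h2 : Adm m G2)
    (h : ∀ η x, G η x = G1 η x + G2 η x) (y : Fin m → ℝ) (x : ℝ) :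
    Tm m M G y x = Tm m M G1 y x + Tm m M G2 y x := by
  have hft : ∀ η ξ, ft (G η) ξ = ft (G1 η) ξ + ft (G2 η) ξ := by
    intro η ξ
    unfold ft
    have hi : ∀ {G0 : ℝ → ℂ}, Integrable G0 → Integrable (fun z : ℝ => e (-(z * ξ)) * G0 z) := by
      intro G0 hG0
      refine hG0.bdd_mul (c := 1) ?_ ?_
      · exact (measurable_e.comp (by fun_prop)).aestronglyMeasurable
      · exact Filter.Eventually.of_forall fun z => (norm_e _).le
    rw [← integral_add (hi (Adm.int h1 η)) (hi (Adm.int h2 η))]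
    refine integral_congr_ae (Filter.Eventually.of_forall fun z => ?_)
    simp only
    rw [h]
    ring
  have hUx : ∀ η, Ux (Real.sqrt (∑ i, η i ^ 2)) M (G η) x =
      Ux (Real.sqrt (∑ i, η i ^ 2)) M (G1 η) x + Ux (Real.sqrt (∑ i, η i ^ 2)) M (G2 η) x := by
    intro η
    unfold Ux
    rw [← integral_add (int_Ux hM hb (Adm.int h1 η) _ _) (int_Ux hM hb (Adm.int h2 η) _ _)]
    refine integral_congr_ae (Filter.Eventually.of_forall fun ξ => ?_)
    simp only
    rw [hft]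
    ring
  unfold Tm
  rw [← integral_add (int_Tm hM hb h1 y x) (int_Tm hM hb h2 y x)]
  refine integral_congr_ae (Filter.Eventually.of_forall fun η => ?_)
  simp only
  rw [hUx]
  ring

/-! ### the two families -/

lemma gb_mc {s τ : ℝ} (hs : 0 < s) (hτ : 0 < τ) : GB (mc s τ) := by
  refine ⟨?_, fun t => ⟨1, τ, hτ, zero_le_one, fun r => ?_⟩⟩
  · unfold Function.uncurry mc
    fun_prop
  · unfold mc
    rw [abs_mul, abs_of_pos (Real.exp_pos _), one_mul]
    refine mul_le_of_le_one_right (Real.exp_nonneg _) ?_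
    rw [abs_mul]
    refine mul_le_one₀ (Real.abs_cos_le_one _) (abs_nonneg _) ?_
    have h1 : (1 : ℝ) ≤ 1 + 4 * Real.pi ^ 2 * r ^ 2 := by
      have : 0 ≤ 4 * Real.pi ^ 2 * r ^ 2 := by positivity
      linarith
    rw [abs_of_nonneg (Real.rpow_nonneg (by linarith) _)]
    exact Real.rpow_le_one_of_one_le_of_nonpos h1 (by linarith)

lemma gb_ms {s τ : ℝ} (hs : 0 < s) (hτ : 0 < τ) : GB (ms s τ) := by
  refine ⟨?_, fun t => ⟨|t| * (1 + 8 * Real.pi ^ 2 / τ), τ / 2, by positivity, by positivity,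
    fun r => ?_⟩⟩
  · unfold Function.uncurry ms
    fun_prop
  · unfold ms
    rw [abs_mul, abs_of_pos (Real.exp_pos _), abs_mul]
    have h1 : (1 : ℝ) ≤ 1 + 4 * Real.pi ^ 2 * r ^ 2 := by
      have : 0 ≤ 4 * Real.pi ^ 2 * r ^ 2 := by positivity
      linarith
    have h2 : |(1 + 4 * Real.pi ^ 2 * r ^ 2) ^ ((1 - s) / 2)| ≤ 1 + 4 * Real.pi ^ 2 * r ^ 2 := by
      rw [abs_of_nonneg (Real.rpow_nonneg (by linarith) _)]
      calc (1 + 4 * Real.pi ^ 2 * r ^ 2) ^ ((1 - s) / 2) ≤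
          (1 + 4 * Real.pi ^ 2 * r ^ 2) ^ (1 : ℝ) :=
            Real.rpow_le_rpow_of_exponent_le h1 (by linarith)
        _ = _ := Real.rpow_one _
    have h3 : |Real.sin (2 * Real.pi * (t * r)) / (2 * Real.pi * r)| ≤ |t| := by
      rw [abs_div]
      by_cases hr : r = 0
      · rw [hr]; simp
      · rw [div_le_iff₀ (abs_pos.2 (by positivity))]
        refine Real.abs_sin_le_abs.trans (le_of_eq ?_)
        rw [abs_mul, abs_mul, abs_mul, abs_mul, abs_mul]
        ring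
    have h4 : 4 * Real.pi ^ 2 * r ^ 2 * Real.exp (-(τ / 2 * r ^ 2)) ≤ 8 * Real.pi ^ 2 / τ := by
      have h5 : (τ / 2 * r ^ 2) * Real.exp (-(τ / 2 * r ^ 2)) ≤ 1 := by
        have h6 := Real.add_one_le_exp (τ / 2 * r ^ 2)
        rw [Real.exp_neg, ← div_eq_mul_inv, div_le_one (Real.exp_pos _)]
        linarith
      have h7 : 4 * Real.pi ^ 2 * r ^ 2 * Real.exp (-(τ / 2 * r ^ 2)) =
          8 * Real.pi ^ 2 / τ * ((τ / 2 * r ^ 2) * Real.exp (-(τ / 2 * r ^ 2))) := by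
        field_simp
        ring
      rw [h7]
      exact mul_le_of_le_one_right (by positivity) h5
    have h8 : Real.exp (-(τ / 2 * r ^ 2)) ≤ 1 := by
      rw [Real.exp_le_one_iff]
      have : 0 ≤ τ / 2 * r ^ 2 := by positivity
      linarith
    have h9 : Real.exp (-(τ * r ^ 2)) =
        Real.exp (-(τ / 2 * r ^ 2)) * Real.exp (-(τ / 2 * r ^ 2)) := by
      rw [← Real.exp_add]
      congr 1; ring
    calc Real.exp (-(τ * r ^ 2)) * (|Real.sin (2 * Real.pi * (t * r)) / (2 * Real.pi * r)| *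
          |(1 + 4 * Real.pi ^ 2 * r ^ 2) ^ ((1 - s) / 2)|)
        ≤ Real.exp (-(τ * r ^ 2)) * (|t| * (1 + 4 * Real.pi ^ 2 * r ^ 2)) := by
          gcongr
      _ = |t| * (Real.exp (-(τ / 2 * r ^ 2)) + 4 * Real.pi ^ 2 * r ^ 2 *
          Real.exp (-(τ / 2 * r ^ 2))) * Real.exp (-(τ / 2 * r ^ 2)) := by
          rw [h9]; ring
      _ ≤ |t| * (1 + 8 * Real.pi ^ 2 / τ) * Real.exp (-(τ / 2 * r ^ 2)) := by
          gcongr

end Pool.Agent.TH209.TP
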